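import Mathlib
import Pool.Agent.Results.MP_557f7f_co.InertialSuperpattern

set_option autoImplicit false

/-!
# Spectrally arbitrary sign patterns with superpatterns that are not spectrally arbitrary

For every `n ≥ 6` there is a spectrally arbitrary sign pattern `S` of order `n` and a superpattern
`S'` of `S`, with only one more nonzero entry, which is not spectrally arbitrary: no realization of
`S'` is nilpotent.  The pattern `S` is `M₄ ⊕ T` for a spectrally arbitrary pattern `T` of order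
`n - 4`, and `S'` is `M₄' ⊕ T`, where `M₄'` is `M₄` with a plus sign in position `(1, 4)`.
-/

namespace Pool.Agent.Results.MP_557f7f_co.SpectralSuperpattern

open Polynomial Matrix

/-- `A` is a realization of the sign pattern `S`. -/
def Realizes {ι : Type} (A : Matrix ι ι ℝ) (S : Matrix ι ι SignType) : Prop :=
  ∀ i j, SignType.sign (A i j) = S i j

/-- The sign pattern `S` is spectrally arbitrary: every monic real polynomial of degree `n` is the
characteristic polynomial of a realization of `S`. -/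
def SpectrallyArbitrary {n : ℕ} (S : Matrix (Fin n) (Fin n) SignType) : Prop :=
  ∀ p : ℝ[X], p.Monic → p.natDegree = n →
    ∃ A : Matrix (Fin n) (Fin n) ℝ, Realizes A S ∧ A.charpoly = p

/-- `S'` is a superpattern of `S`: it agrees with `S` at every nonzero entry of `S`. -/
def IsSuperpattern {n : ℕ} (S' S : Matrix (Fin n) (Fin n) SignType) : Prop :=
  ∀ i j, S i j ≠ 0 → S' i j = S i j

/-! ### The quartics realized by `M₄` -/

/-- The pattern `M₄` -/
def M4 : Matrix (Fin 4) (Fin 4) SignType :=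
  !![1, 1, -1, 0;
     -1, -1, 1, 0;
     0, 0, 0, -1;
     1, 1, 0, 0]

/-- The pattern `M₄` with a plus sign in position `(1, 4)`. -/
def M4' : Matrix (Fin 4) (Fin 4) SignType :=
  !![1, 1, -1, 1;
     -1, -1, 1, 0;
     0, 0, 0, -1;
     1, 1, 0, 0]

theorem det4 (a b c r d e f g h k x : ℝ) :
    (!![x - a, -b, -c, -r; -d, x - e, -f, 0; 0, 0, x, -g; -h, -k, 0, x] :
      Matrix (Fin 4) (Fin 4) ℝ).det =
    x ^ 4 - (a + e) * x ^ 3 + (a * e - b * d - r * h) * x ^ 2
      - (r * (d * k - e * h) + c * g * h + f * g * k) * x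
      + g * (a * f * k - b * f * h - c * (d * k - e * h)) := by
  simp [Matrix.det_succ_row_zero, Fin.sum_univ_succ, Fin.succAbove]
  ring

theorem eval_charpoly4 (a b c r d e f g h k x : ℝ) :
    (!![a, b, c, r; d, e, f, 0; 0, 0, 0, g; h, k, 0, 0] :
      Matrix (Fin 4) (Fin 4) ℝ).charpoly.eval x =
    x ^ 4 - (a + e) * x ^ 3 + (a * e - b * d - r * h) * x ^ 2
      - (r * (d * k - e * h) + c * g * h + f * g * k) * x
      + g * (a * f * k - b * f * h - c * (d * k - e * h)) := by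
  rw [Matrix.eval_charpoly, ← det4]
  congr 1
  ext i j
  rw [Matrix.sub_apply, Matrix.scalar_apply, Matrix.diagonal_apply]
  fin_cases i <;> fin_cases j <;> simp

theorem sum_prod (R q : ℝ) (hR : 0 < R) (hq : 0 < q) (h : 4 * q ≤ R ^ 2) :
    ∃ w z : ℝ, 0 < w ∧ 0 < z ∧ w + z = R ∧ w * z = q := by
  have h0 : 0 ≤ R ^ 2 - 4 * q := by linarith
  have hs := Real.sq_sqrt h0
  have hs0 := Real.sqrt_nonneg (R ^ 2 - 4 * q)
  have hlt : Real.sqrt (R ^ 2 - 4 * q) < R := by
    by_contra hc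
    push Not at hc
    nlinarith
  refine ⟨(R + Real.sqrt (R ^ 2 - 4 * q)) / 2, (R - Real.sqrt (R ^ 2 - 4 * q)) / 2,
    by linarith, by linarith, by ring, by nlinarith⟩

/-- The condition on the coefficients of `x⁴ - E₁ x³ + E₂ x² - E₃ x + E₄` under which it is the
characteristic polynomial of a realization of `M₄`. -/
def Good (E1 E2 E3 E4 : ℝ) : Prop :=
  E3 ≠ 0 ∨ 4 * E2 < E1 ^ 2 ∨ 0 < E4 ∨ (E4 = 0 ∧ 4 * E2 = E1 ^ 2)

/-- Existence of suitable parameters. -/
def Params (E1 E2 E3 E4 : ℝ) : Prop :=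
  ∃ a e u v : ℝ, 0 < a ∧ 0 < e ∧ 0 < u ∧ 0 < v ∧ a - e = E1 ∧ u - v = E3 ∧ 0 < E2 + a * e ∧
    0 < E4 + a * v + e * u ∧ 4 * ((E2 + a * e) * u * v) ≤ (E4 + a * v + e * u) ^ 2

theorem realize_of_params (E1 E2 E3 E4 : ℝ) (hp : Params E1 E2 E3 E4) :
    ∃ A : Matrix (Fin 4) (Fin 4) ℝ, Realizes A M4 ∧
      ∀ x, A.charpoly.eval x = x ^ 4 - E1 * x ^ 3 + E2 * x ^ 2 - E3 * x + E4 := by
  obtain ⟨a, e, u, v, ha, he, hu, hv, h1, h3, hP, hR, hq⟩ := hp
  obtain ⟨w, z, hw, hz, hwz, hwz'⟩ := sum_prod _ _ hR (by positivity) hq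
  refine ⟨!![a, w / v, -u, 0; -((E2 + a * e) * v / w), -e, v, 0; 0, 0, 0, -1; 1, 1, 0, 0], ?_, ?_⟩
  · have hb : 0 < w / v := by positivity
    have hd : 0 < (E2 + a * e) * v / w := by positivity
    intro i j
    fin_cases i <;> fin_cases j
    · exact sign_pos ha
    · exact sign_pos hb
    · exact sign_neg (neg_neg_of_pos hu)
    · exact sign_zero
    · exact sign_neg (neg_neg_of_pos hd)
    · exact sign_neg (neg_neg_of_pos he)
    · exact sign_pos hv
    · exact sign_zero
    · exact sign_zero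
    · exact sign_zero
    · exact sign_zero
    · exact sign_neg (neg_neg_of_pos one_pos)
    · exact sign_pos one_pos
    · exact sign_pos one_pos
    · exact sign_zero
    · exact sign_zero
  · intro x
    rw [eval_charpoly4]
    have e1 : w / v * ((E2 + a * e) * v / w) = E2 + a * e := by field_simp
    have e2 : w / v * v = w := by field_simp
    have e3 : u * ((E2 + a * e) * v / w) = z := by
      rw [← mul_div_assoc, div_eq_iff hw.ne', mul_comm z w, hwz']; ring
    have h4 : E4 = w + z - a * v - e * u := by linarith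
    have h1' : E1 = a - e := h1.symm
    have h3' : E3 = u - v := h3.symm
    have hE2 : E2 = w / v * ((E2 + a * e) * v / w) - a * e := by rw [e1]; ring
    have hE4 : E4 = w / v * v + u * ((E2 + a * e) * v / w) - a * v - e * u := by
      rw [e2, e3]; exact h4
    rw [h1', h3']
    have : x ^ 4 - (a - e) * x ^ 3 + E2 * x ^ 2 - (u - v) * x + E4 =
      x ^ 4 - (a - e) * x ^ 3 + (w / v * ((E2 + a * e) * v / w) - a * e) * x ^ 2 - (u - v) * x +
        (w / v * v + u * ((E2 + a * e) * v / w) - a * v - e * u) := by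
      rw [← hE4, ← hE2]
    rw [this]
    ring

theorem params_swap (E1 E2 E3 E4 : ℝ) (h : Params (-E1) E2 (-E3) E4) : Params E1 E2 E3 E4 := by
  obtain ⟨a, e, u, v, ha, he, hu, hv, h1, h3, hP, hR, hq⟩ := h
  refine ⟨e, a, v, u, he, ha, hv, hu, by linarith, by linarith, by linarith, by linarith, ?_⟩
  have e1 : (E2 + e * a) * v * u = (E2 + a * e) * u * v := by ring
  have e2 : E4 + e * u + a * v = E4 + a * v + e * u := by ring
  rw [e1, e2]
  exact hq

theorem big (δ M N B : ℝ) (hδ : 0 < δ) :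
    ∃ e : ℝ, B ≤ e ∧ 1 ≤ e ∧ M * e + N ≤ δ * e ^ 2 := by
  refine ⟨max B (max 1 ((|M| + |N|) / δ)), le_max_left _ _,
    (le_max_left _ _).trans (le_max_right _ _), ?_⟩
  set e := max B (max 1 ((|M| + |N|) / δ)) with he
  have h1 : 1 ≤ e := (le_max_left _ _).trans (le_max_right _ _)
  have h2 : (|M| + |N|) / δ ≤ e := (le_max_right _ _).trans (le_max_right _ _)
  rw [div_le_iff₀ hδ] at h2
  have h3 : M * e ≤ |M| * e := mul_le_mul_of_nonneg_right (le_abs_self M) (by linarith)
  have h4 : N ≤ |N| * e := (le_abs_self N).trans (le_mul_of_one_le_right (abs_nonneg N) h1)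
  have h5 : (|M| + |N|) * e ≤ (e * δ) * e := mul_le_mul_of_nonneg_right h2 (by linarith)
  nlinarith

theorem params_pos (E1 E2 E3 E4 : ℝ) (h : 0 < E3) : Params E1 E2 E3 E4 := by
  obtain ⟨e, hB, h1, hbig⟩ := big (E3 ^ 2)
    (2 * (|E4| + |E1|) * E3 + 4 * (E3 + 1)) (4 * (|E1| + |E2|) * (E3 + 1))
    (1 + |E1| + |E2| + (|E4| + |E1| + 1) / E3) (by positivity)
  have a1 := abs_nonneg E1
  have a2 := abs_nonneg E2
  have a4 := abs_nonneg E4
  have l1 := neg_abs_le E1
  have l1' := le_abs_self E1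
  have l2 := neg_abs_le E2
  have l2' := le_abs_self E2
  have l4 := neg_abs_le E4
  have he0 : 0 < e := by linarith
  have hfrac : 0 < (|E4| + |E1| + 1) / E3 := by positivity
  have hB1 : 1 + |E1| + |E2| ≤ e := by linarith
  have hB2 : (|E4| + |E1| + 1) / E3 ≤ e := by linarith
  rw [div_le_iff₀ h] at hB2
  have hinv : 0 < e⁻¹ := inv_pos.2 he0
  have hinv1 : e⁻¹ ≤ 1 := inv_le_one_of_one_le₀ h1
  have hee : e * e⁻¹ = 1 := mul_inv_cancel₀ he0.ne'
  have hE1i : -|E1| ≤ E1 * e⁻¹ := by nlinarith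
  refine ⟨e + E1, e, E3 + e⁻¹, e⁻¹, by linarith, he0, by linarith, hinv, by ring, by ring,
    by nlinarith, ?_, ?_⟩
  · have : E4 + (e + E1) * e⁻¹ + e * (E3 + e⁻¹) = E4 + 2 * (e * e⁻¹) + E1 * e⁻¹ + e * E3 := by
      ring
    rw [this, hee]
    linarith
  · have hR : E4 + (e + E1) * e⁻¹ + e * (E3 + e⁻¹) = E4 + 2 * (e * e⁻¹) + E1 * e⁻¹ + e * E3 := by
      ring
    have hR' : e * E3 - (|E4| + |E1|) ≤ E4 + (e + E1) * e⁻¹ + e * (E3 + e⁻¹) := by
      rw [hR, hee]; linarith
    have hpos : 0 ≤ e * E3 - (|E4| + |E1|) := by linarith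
    have hsq : (e * E3 - (|E4| + |E1|)) ^ 2 ≤ (E4 + (e + E1) * e⁻¹ + e * (E3 + e⁻¹)) ^ 2 :=
      pow_le_pow_left₀ hpos hR' 2
    have hq : (E2 + (e + E1) * e) * (E3 + e⁻¹) * e⁻¹ =
        (E2 * e⁻¹ + (e * e⁻¹) * (e + E1)) * (E3 + e⁻¹) := by ring
    rw [hq, hee, one_mul]
    have hE2i : E2 * e⁻¹ ≤ |E2| := by nlinarith
    have hq1 : (E2 * e⁻¹ + (e + E1)) * (E3 + e⁻¹) ≤ (|E2| + (e + |E1|)) * (E3 + 1) :=
      mul_le_mul (by linarith) (by linarith) (by positivity) (by positivity)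
    nlinarith

theorem params_of_good (E1 E2 E3 E4 : ℝ) (h : Good E1 E2 E3 E4) : Params E1 E2 E3 E4 := by
  by_cases h3 : E3 = 0
  · subst h3
    have a1 := abs_nonneg E1
    have a2 := abs_nonneg E2
    have l1 := neg_abs_le E1
    have l2 := neg_abs_le E2
    set e : ℝ := 1 + |E1| + |E2| with he
    have he0 : 0 < e := by linarith
    have ha0 : 0 < e + E1 := by linarith
    have hP : 0 < E2 + (e + E1) * e := by nlinarith
    -- with `u = v = m`
    have key : ∀ m : ℝ, 0 < m → 0 < E4 + m * (2 * e + E1) →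
        4 * ((E2 + (e + E1) * e) * m ^ 2) ≤ (E4 + m * (2 * e + E1)) ^ 2 →
        Params E1 E2 0 E4 := by
      intro m hm h1 h2
      refine ⟨e + E1, e, m, m, ha0, he0, hm, hm, by ring, by ring, hP, ?_, ?_⟩
      · have : E4 + (e + E1) * m + e * m = E4 + m * (2 * e + E1) := by ring
        rw [this]; exact h1
      · have : E4 + (e + E1) * m + e * m = E4 + m * (2 * e + E1) := by ring
        rw [this]
        calc 4 * ((E2 + (e + E1) * e) * m * m) = 4 * ((E2 + (e + E1) * e) * m ^ 2) := by ring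
          _ ≤ _ := h2
    rcases h with h | h | h | h
    · exact absurd rfl h
    · obtain ⟨m, hm1, hm2, hm3⟩ := big (E1 ^ 2 - 4 * E2) (-(2 * E4 * (2 * e + E1))) (-(E4 ^ 2))
        (|E4| / (2 * e + E1) + 1) (by linarith)
      have hs : 0 < 2 * e + E1 := by linarith
      refine key m (by linarith) ?_ ?_
      · have h5 : |E4| / (2 * e + E1) < m := by linarith
        rw [div_lt_iff₀ hs] at h5
        have := neg_abs_le E4
        linarith
      · nlinarith
    · refine key (E4 / (2 * (E2 + (e + E1) * e + 1))) (by positivity) ?_ ?_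
      · have hs : 0 < 2 * e + E1 := by linarith
        positivity
      · have hs : 0 < 2 * e + E1 := by linarith
        set P := E2 + (e + E1) * e with hPdef
        set m := E4 / (2 * (P + 1)) with hm
        have hm0 : 0 < m := by positivity
        have hE4 : E4 = 2 * (P + 1) * m := by rw [hm]; field_simp
        have h6 : E4 ≤ E4 + m * (2 * e + E1) := by
          have : 0 < m * (2 * e + E1) := by positivity
          linarith
        have h7 : E4 ^ 2 ≤ (E4 + m * (2 * e + E1)) ^ 2 := pow_le_pow_left₀ h.le h6 2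
        refine le_trans ?_ h7
        rw [hE4]
        have h8 : (2 * (P + 1) * m) ^ 2 = 4 * ((P + 1) ^ 2 * m ^ 2) := by ring
        rw [h8]
        have h9 : P * m ^ 2 ≤ (P + 1) ^ 2 * m ^ 2 :=
          mul_le_mul_of_nonneg_right (by nlinarith) (by positivity)
        linarith
    · obtain ⟨h4, h5⟩ := h
      refine key 1 one_pos (by rw [h4]; linarith) ?_
      rw [h4]
      nlinarith
  · rcases lt_or_gt_of_ne h3 with h | h
    · exact params_swap _ _ _ _ (params_pos _ _ _ _ (by linarith))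
    · exact params_pos _ _ _ _ h

/-- Of three real quadratics `x² - sᵢ x + tᵢ` two have a product which is realized by `M₄`. -/
theorem good_pair (s1 t1 s2 t2 s3 t3 : ℝ) :
    Good (s1 + s2) (t1 + t2 + s1 * s2) (s1 * t2 + s2 * t1) (t1 * t2) ∨
    Good (s1 + s3) (t1 + t3 + s1 * s3) (s1 * t3 + s3 * t1) (t1 * t3) ∨
    Good (s2 + s3) (t2 + t3 + s2 * s3) (s2 * t3 + s3 * t2) (t2 * t3) := by
  by_contra hcon
  unfold Good at hcon
  push Not at hcon
  obtain ⟨⟨a1, a2, a3, a4⟩, ⟨b1, b2, b3, b4⟩, ⟨c1, c2, c3, c4⟩⟩ := hcon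
  -- no two of the `t`'s vanish
  have two : ∀ s s' : ℝ, (s + s') ^ 2 ≤ 4 * (0 + 0 + s * s') →
      4 * (0 + 0 + s * s') = (s + s') ^ 2 := by
    intro s s' h
    nlinarith [sq_nonneg (s - s')]
  -- if one of the `t`'s vanishes
  have one : ∀ s t s' t' s'' : ℝ, t ≠ 0 → t' ≠ 0 → s * 0 + s'' * t = 0 →
      (s + s'') ^ 2 ≤ 4 * (t + 0 + s * s'') → (s' + s'') ^ 2 ≤ 4 * (t' + 0 + s' * s'') →
      t * t' ≤ 0 → False := by
    intro s t s' t' s'' ht ht' h h1 h2 h3
    have hs : s'' = 0 := by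
      have : s'' * t = 0 := by linarith
      exact (mul_eq_zero.1 this).resolve_right ht
    subst hs
    have h4 : 0 ≤ t := by nlinarith [sq_nonneg s]
    have h5 : 0 ≤ t' := by nlinarith [sq_nonneg s']
    have h6 : 0 < t := lt_of_le_of_ne h4 (Ne.symm ht)
    have h7 : 0 < t' := lt_of_le_of_ne h5 (Ne.symm ht')
    have := mul_pos h6 h7
    linarith
  by_cases z1 : t1 = 0
  · by_cases z2 : t2 = 0
    · subst z1 z2
      exact a4 (by ring) (two _ _ a2)
    · by_cases z3 : t3 = 0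
      · subst z1 z3
        exact b4 (by ring) (two _ _ b2)
      · subst z1
        refine one s2 t2 s3 t3 s1 z2 z3 (by linarith) ?_ ?_ c3
        · have : (s2 + s1) ^ 2 = (s1 + s2) ^ 2 := by ring
          rw [this]; linarith
        · have : (s3 + s1) ^ 2 = (s1 + s3) ^ 2 := by ring
          rw [this]; linarith
  · by_cases z2 : t2 = 0
    · by_cases z3 : t3 = 0
      · subst z2 z3
        exact c4 (by ring) (two _ _ c2)
      · subst z2
        refine one s1 t1 s3 t3 s2 z1 z3 (by linarith) (by linarith) ?_ b3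
        have : (s3 + s2) ^ 2 = (s2 + s3) ^ 2 := by ring
        rw [this]; linarith
    · by_cases z3 : t3 = 0
      · subst z3
        exact one s1 t1 s2 t2 s3 z1 z2 (by linarith) (by linarith) (by linarith) a3
      · have p1 : t1 * t2 < 0 := lt_of_le_of_ne a3 (mul_ne_zero z1 z2)
        have p2 : t1 * t3 < 0 := lt_of_le_of_ne b3 (mul_ne_zero z1 z3)
        have p3 : t2 * t3 < 0 := lt_of_le_of_ne c3 (mul_ne_zero z2 z3)
        have p4 : 0 < (t1 * t2) * (t1 * t3) := mul_pos_of_neg_of_neg p1 p2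
        have p5 : (t1 * t2) * (t1 * t3) = t1 ^ 2 * (t2 * t3) := by ring
        have p6 : t1 ^ 2 * (t2 * t3) ≤ 0 := mul_nonpos_of_nonneg_of_nonpos (sq_nonneg _) p3.le
        linarith

/-! ### Direct sums -/

/-- The direct sum of two patterns, on `Fin (m + k)`. -/
def dsum {m k : ℕ} (S : Matrix (Fin m) (Fin m) SignType) (T : Matrix (Fin k) (Fin k) SignType) :
    Matrix (Fin (m + k)) (Fin (m + k)) SignType :=
  Matrix.reindex finSumFinEquiv finSumFinEquiv (Matrix.fromBlocks S 0 0 T)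

theorem realizes_dsum {m k : ℕ} {S : Matrix (Fin m) (Fin m) SignType}
    {T : Matrix (Fin k) (Fin k) SignType} {A : Matrix (Fin m) (Fin m) ℝ}
    {B : Matrix (Fin k) (Fin k) ℝ} (hA : Realizes A S) (hB : Realizes B T) :
    Realizes (Matrix.reindex finSumFinEquiv finSumFinEquiv (Matrix.fromBlocks A 0 0 B))
      (dsum S T) := by
  intro i j
  obtain ⟨i, rfl⟩ := (finSumFinEquiv (m := m) (n := k)).surjective i
  obtain ⟨j, rfl⟩ := (finSumFinEquiv (m := m) (n := k)).surjective j
  unfold dsum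
  rw [Matrix.reindex_apply, Matrix.submatrix_apply, Matrix.reindex_apply, Matrix.submatrix_apply,
    Equiv.symm_apply_apply, Equiv.symm_apply_apply]
  rcases i with i | i <;> rcases j with j | j
  · rw [Matrix.fromBlocks_apply₁₁, Matrix.fromBlocks_apply₁₁, hA i j]
  · rw [Matrix.fromBlocks_apply₁₂, Matrix.fromBlocks_apply₁₂, Matrix.zero_apply, sign_zero]
    rfl
  · rw [Matrix.fromBlocks_apply₂₁, Matrix.fromBlocks_apply₂₁, Matrix.zero_apply, sign_zero]
    rfl
  · rw [Matrix.fromBlocks_apply₂₂, Matrix.fromBlocks_apply₂₂, hB i j]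

theorem charpoly_dsum {m k : ℕ} (A : Matrix (Fin m) (Fin m) ℝ) (B : Matrix (Fin k) (Fin k) ℝ) :
    (Matrix.reindex finSumFinEquiv finSumFinEquiv (Matrix.fromBlocks A 0 0 B)).charpoly =
      A.charpoly * B.charpoly := by
  rw [Matrix.charpoly_reindex, Matrix.charpoly_fromBlocks_zero₁₂]

/-- Every realization of a direct sum is a direct sum of realizations. -/
theorem blocks_of_realizes {m k : ℕ} {S : Matrix (Fin m) (Fin m) SignType}
    {T : Matrix (Fin k) (Fin k) SignType} {A : Matrix (Fin (m + k)) (Fin (m + k)) ℝ}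
    (h : Realizes A (dsum S T)) :
    ∃ (B : Matrix (Fin m) (Fin m) ℝ) (C : Matrix (Fin k) (Fin k) ℝ), Realizes B S ∧
      A.charpoly = B.charpoly * C.charpoly := by
  refine ⟨A.submatrix (fun i => finSumFinEquiv (Sum.inl i)) (fun i => finSumFinEquiv (Sum.inl i)),
    A.submatrix (fun i => finSumFinEquiv (Sum.inr i)) (fun i => finSumFinEquiv (Sum.inr i)),
    ?_, ?_⟩
  · intro i j
    rw [Matrix.submatrix_apply, h]
    unfold dsum
    rw [Matrix.reindex_apply, Matrix.submatrix_apply, Equiv.symm_apply_apply,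
      Equiv.symm_apply_apply, Matrix.fromBlocks_apply₁₁]
  · rw [← charpoly_dsum]
    congr 1
    ext i j
    obtain ⟨i, rfl⟩ := (finSumFinEquiv (m := m) (n := k)).surjective i
    obtain ⟨j, rfl⟩ := (finSumFinEquiv (m := m) (n := k)).surjective j
    rw [Matrix.reindex_apply, Matrix.submatrix_apply, Equiv.symm_apply_apply,
      Equiv.symm_apply_apply]
    rcases i with i | i <;> rcases j with j | j
    · rw [Matrix.fromBlocks_apply₁₁, Matrix.submatrix_apply]
    · rw [Matrix.fromBlocks_apply₁₂, Matrix.zero_apply]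
      have h1 := h (finSumFinEquiv (Sum.inl i)) (finSumFinEquiv (Sum.inr j))
      unfold dsum at h1
      rw [Matrix.reindex_apply, Matrix.submatrix_apply, Equiv.symm_apply_apply,
        Equiv.symm_apply_apply, Matrix.fromBlocks_apply₁₂] at h1
      exact sign_eq_zero_iff.1 h1
    · rw [Matrix.fromBlocks_apply₂₁, Matrix.zero_apply]
      have h1 := h (finSumFinEquiv (Sum.inr i)) (finSumFinEquiv (Sum.inl j))
      unfold dsum at h1
      rw [Matrix.reindex_apply, Matrix.submatrix_apply, Equiv.symm_apply_apply,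
        Equiv.symm_apply_apply, Matrix.fromBlocks_apply₂₁] at h1
      exact sign_eq_zero_iff.1 h1
    · rw [Matrix.fromBlocks_apply₂₂, Matrix.submatrix_apply]

/-! ### Spectrally arbitrary patterns of every order at least two -/

/-- A monic real quadratic. -/
theorem quadratic_form {q : ℝ[X]} (h : IsMonicOfDegree q 2) :
    ∃ s t : ℝ, q = X ^ 2 - C s * X + C t := by
  refine ⟨-q.coeff 1, q.coeff 0, ?_⟩
  have h1 := q.as_sum_range_C_mul_X_pow
  rw [h.natDegree_eq] at h1
  have h2 : q.coeff 2 = 1 := by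
    have := h.monic.coeff_natDegree
    rwa [h.natDegree_eq] at this
  conv_lhs => rw [h1]
  simp only [Finset.sum_range_succ, Finset.sum_range_zero, h2, pow_zero, pow_one, C_neg, C_1]
  ring

/-- The pattern `T₂`. -/
def T2 : Matrix (Fin 2) (Fin 2) SignType := !![1, 1; -1, -1]

theorem charpoly2 (a b c d : ℝ) :
    (!![a, b; c, d] : Matrix (Fin 2) (Fin 2) ℝ).charpoly =
      X ^ 2 - C (a + d) * X + C (a * d - b * c) := by
  rw [Matrix.charpoly_fin_two, Matrix.trace_fin_two, Matrix.det_fin_two]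
  simp

theorem T2_arbitrary : SpectrallyArbitrary T2 := by
  intro p hp hd
  obtain ⟨s, t, rfl⟩ := quadratic_form ⟨hd, hp⟩
  have a1 := abs_nonneg s
  have a2 := abs_nonneg t
  have l1 := neg_abs_le s
  have l2 := neg_abs_le t
  set d : ℝ := 1 + |s| + |t| with hdd
  have hd0 : 0 < d := by linarith
  have ha0 : 0 < d + s := by linarith
  have hq : 0 < t + (d + s) * d := by nlinarith
  refine ⟨!![d + s, 1; -(t + (d + s) * d), -d], ?_, ?_⟩
  · intro i j
    fin_cases i <;> fin_cases j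
    · exact sign_pos ha0
    · exact sign_pos one_pos
    · exact sign_neg (neg_neg_of_pos hq)
    · exact sign_neg (neg_neg_of_pos hd0)
  · rw [charpoly2]
    congr 2
    · congr 2
      ring
    · ring

/-- A monic real cubic. -/
theorem cubic_form {q : ℝ[X]} (h1 : q.Monic) (h2 : q.natDegree = 3) :
    ∃ u1 u2 u3 : ℝ, q = X ^ 3 + C u1 * X ^ 2 + C u2 * X + C u3 := by
  refine ⟨q.coeff 2, q.coeff 1, q.coeff 0, ?_⟩
  have h3 := q.as_sum_range_C_mul_X_pow
  rw [h2] at h3
  have h4 : q.coeff 3 = 1 := by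
    have := h1.coeff_natDegree
    rwa [h2] at this
  conv_lhs => rw [h3]
  simp only [Finset.sum_range_succ, Finset.sum_range_zero, h4, pow_zero, pow_one, C_1]
  ring

theorem T3_arbitrary : SpectrallyArbitrary InertialSuperpattern.T3 := by
  intro p hp hd
  obtain ⟨u1, u2, u3, rfl⟩ := cubic_form hp hd
  obtain ⟨A, hA, h⟩ := InertialSuperpattern.realize_T3 u1 u2 u3
  exact ⟨A, fun i j => hA i j, h⟩

theorem dsum_T2_arbitrary {k : ℕ} {T : Matrix (Fin k) (Fin k) SignType}
    (hT : SpectrallyArbitrary T) : SpectrallyArbitrary (dsum T T2) := by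
  intro p hp hd
  obtain ⟨f, g, hf, hg, rfl⟩ :=
    IsMonicOfDegree.eq_isMonicOfDegree_two_mul_isMonicOfDegree (f := p) (n := k) ⟨hd, hp⟩
  obtain ⟨A, hA, hA'⟩ := hT g hg.monic hg.natDegree_eq
  obtain ⟨B, hB, hB'⟩ := T2_arbitrary f hf.monic hf.natDegree_eq
  exact ⟨_, realizes_dsum hA hB, by rw [charpoly_dsum, hA', hB', mul_comm]⟩

theorem exists_arbitrary (k : ℕ) (hk : 2 ≤ k) :
    ∃ T : Matrix (Fin k) (Fin k) SignType, SpectrallyArbitrary T := by
  induction k using Nat.strong_induction_on with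
  | _ k ih =>
    rcases Nat.lt_or_ge k 4 with h | h
    · interval_cases k
      · exact ⟨T2, T2_arbitrary⟩
      · exact ⟨_, T3_arbitrary⟩
    · obtain ⟨T, hT⟩ := ih (k - 2) (by omega) (by omega)
      obtain ⟨l, rfl⟩ : ∃ l, k = l + 2 := ⟨k - 2, by omega⟩
      exact ⟨dsum T T2, dsum_T2_arbitrary hT⟩

/-! ### The direct sums with `M₄` and `M₄'` -/

theorem M4_of_good {s t s' t' : ℝ}
    (h : Good (s + s') (t + t' + s * s') (s * t' + s' * t) (t * t')) :
    ∃ A : Matrix (Fin 4) (Fin 4) ℝ, Realizes A M4 ∧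
      A.charpoly = (X ^ 2 - C s * X + C t) * (X ^ 2 - C s' * X + C t') := by
  obtain ⟨A, hA, hA'⟩ := realize_of_params _ _ _ _ (params_of_good _ _ _ _ h)
  refine ⟨A, hA, Polynomial.funext fun x => ?_⟩
  rw [hA']
  simp only [eval_mul, eval_add, eval_sub, eval_pow, eval_X, eval_C]
  ring

theorem M4_dsum_arbitrary {k : ℕ} (hk : 2 ≤ k) {T : Matrix (Fin k) (Fin k) SignType}
    (hT : SpectrallyArbitrary T) : SpectrallyArbitrary (dsum M4 T) := by
  intro p hp hd
  obtain ⟨l, rfl⟩ : ∃ l, k = l + 2 := ⟨k - 2, by omega⟩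
  obtain ⟨q1, p1, hq1, hp1, rfl⟩ :=
    IsMonicOfDegree.eq_isMonicOfDegree_two_mul_isMonicOfDegree (f := p) (n := l + 4)
      ⟨by rw [hd]; ring, hp⟩
  obtain ⟨q2, p2, hq2, hp2, rfl⟩ :=
    IsMonicOfDegree.eq_isMonicOfDegree_two_mul_isMonicOfDegree (f := p1) (n := l + 2) hp1
  obtain ⟨q3, p3, hq3, hp3, rfl⟩ :=
    IsMonicOfDegree.eq_isMonicOfDegree_two_mul_isMonicOfDegree (f := p2) (n := l) hp2
  -- two of the quadratics are used for `M₄`, the rest for `T`
  have key : ∀ q q' q'' : ℝ[X], IsMonicOfDegree q'' 2 →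
      (∃ A : Matrix (Fin 4) (Fin 4) ℝ, Realizes A M4 ∧ A.charpoly = q * q') →
      ∃ A : Matrix (Fin (4 + (l + 2))) (Fin (4 + (l + 2))) ℝ, Realizes A (dsum M4 T) ∧
        A.charpoly = (q * q') * (q'' * p3) := by
    rintro q q' q'' hq'' ⟨A, hA, hA'⟩
    have hm : IsMonicOfDegree (q'' * p3) (2 + l) := hq''.mul hp3
    obtain ⟨B, hB, hB'⟩ := hT (q'' * p3) hm.monic (by rw [hm.natDegree_eq]; ring)
    exact ⟨_, realizes_dsum hA hB, by rw [charpoly_dsum, hA', hB']⟩
  obtain ⟨s1, t1, rfl⟩ := quadratic_form hq1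
  obtain ⟨s2, t2, rfl⟩ := quadratic_form hq2
  obtain ⟨s3, t3, rfl⟩ := quadratic_form hq3
  rcases good_pair s1 t1 s2 t2 s3 t3 with h | h | h
  · obtain ⟨A, hA, hA'⟩ := key _ _ _ hq3 (M4_of_good h)
    exact ⟨A, hA, by rw [hA']; ring⟩
  · obtain ⟨A, hA, hA'⟩ := key _ _ _ hq2 (M4_of_good h)
    exact ⟨A, hA, by rw [hA']; ring⟩
  · obtain ⟨A, hA, hA'⟩ := key _ _ _ hq1 (M4_of_good h)
    exact ⟨A, hA, by rw [hA']; ring⟩

/-- No realization of `M₄'` is nilpotent. -/
theorem M4'_not_nilpotent (A : Matrix (Fin 4) (Fin 4) ℝ) (hA : Realizes A M4') :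
    A.charpoly ≠ X ^ 4 := by
  intro h
  have z : ∀ i j, M4' i j = 0 → A i j = 0 := fun i j h => sign_eq_zero_iff.1 ((hA i j).trans h)
  have hmat : A = !![A 0 0, A 0 1, A 0 2, A 0 3; A 1 0, A 1 1, A 1 2, 0; 0, 0, 0, A 2 3;
      A 3 0, A 3 1, 0, 0] := by
    ext i j
    fin_cases i <;> fin_cases j <;> first
      | rfl
      | exact z _ _ rfl
  have ha : 0 < A 0 0 := sign_eq_one_iff.1 (hA 0 0)
  have hb : 0 < A 0 1 := sign_eq_one_iff.1 (hA 0 1)
  have hc : A 0 2 < 0 := sign_eq_neg_one_iff.1 (hA 0 2)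
  have hr : 0 < A 0 3 := sign_eq_one_iff.1 (hA 0 3)
  have hd : A 1 0 < 0 := sign_eq_neg_one_iff.1 (hA 1 0)
  have he : A 1 1 < 0 := sign_eq_neg_one_iff.1 (hA 1 1)
  have hf : 0 < A 1 2 := sign_eq_one_iff.1 (hA 1 2)
  have hg : A 2 3 < 0 := sign_eq_neg_one_iff.1 (hA 2 3)
  have hh : 0 < A 3 0 := sign_eq_one_iff.1 (hA 3 0)
  have hk : 0 < A 3 1 := sign_eq_one_iff.1 (hA 3 1)
  have hev : ∀ x : ℝ, x ^ 4 = x ^ 4 - (A 0 0 + A 1 1) * x ^ 3 +
      (A 0 0 * A 1 1 - A 0 1 * A 1 0 - A 0 3 * A 3 0) * x ^ 2 -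
      (A 0 3 * (A 1 0 * A 3 1 - A 1 1 * A 3 0) + A 0 2 * A 2 3 * A 3 0 +
        A 1 2 * A 2 3 * A 3 1) * x +
      A 2 3 * (A 0 0 * A 1 2 * A 3 1 - A 0 1 * A 1 2 * A 3 0 -
        A 0 2 * (A 1 0 * A 3 1 - A 1 1 * A 3 0)) := by
    intro x
    rw [← eval_charpoly4, ← hmat, h, eval_pow, eval_X]
  generalize A 0 0 = a at *
  generalize A 0 1 = b at *
  generalize A 0 2 = c at *
  generalize A 0 3 = r at *
  generalize A 1 0 = d at *
  generalize A 1 1 = e at *
  generalize A 1 2 = f at *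
  generalize A 2 3 = g at *
  generalize A 3 0 = p at *
  generalize A 3 1 = k at *
  have v0 := hev 0
  have v1 := hev 1
  have v2 := hev (-1)
  have v3 := hev 2
  have E4 : g * (a * f * k - b * f * p - c * (d * k - e * p)) = 0 := by linarith
  have E2 : a * e - b * d - r * p = 0 := by linarith
  have E1 : a + e = 0 := by linarith
  have E3 : r * (d * k - e * p) + c * g * p + f * g * k = 0 := by linarith
  have E4' : a * f * k - b * f * p - c * (d * k - e * p) = 0 :=
    (mul_eq_zero.1 E4).resolve_left hg.ne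
  have he' : e = -a := by linarith
  subst he'
  -- signs: `c, d, g < 0`, the others are positive; put `D = - (d k + a p)`
  have k1 : (-(d * k + a * p)) * (c * d - a * f) = -(f * r * p ^ 2) := by
    have hbd : b * d = -(a ^ 2) - r * p := by linarith
    have : (-(d * k + a * p)) * (c * d - a * f) =
      d * (a * f * k - b * f * p - c * (d * k - -a * p)) + f * p * (b * d + a ^ 2) := by ring
    rw [this, E4', hbd]
    ring
  have k2 : -g * p * (c * d - a * f) = (-g * f - r * d) * (-(d * k + a * p)) := by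
    have : -g * p * (c * d - a * f) - (-g * f - r * d) * (-(d * k + a * p)) =
      -d * (r * (d * k - -a * p) + c * g * p + f * g * k) := by ring
    rw [E3, mul_zero] at this
    linarith
  have k3 : (-g * f - r * d) * (-(d * k + a * p)) ^ 2 = g * p * (f * r * p ^ 2) := by
    calc (-g * f - r * d) * (-(d * k + a * p)) ^ 2
        = ((-g * f - r * d) * (-(d * k + a * p))) * (-(d * k + a * p)) := by ring
      _ = (-g * p) * ((-(d * k + a * p)) * (c * d - a * f)) := by rw [← k2]; ring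
      _ = g * p * (f * r * p ^ 2) := by rw [k1]; ring
  have k4 : 0 ≤ (-g * f - r * d) * (-(d * k + a * p)) ^ 2 := by
    have : 0 < -g * f := mul_pos (by linarith) hf
    have : 0 < r * -d := mul_pos hr (by linarith)
    have : 0 ≤ -g * f - r * d := by linarith
    positivity
  have k5 : 0 < f * r * p ^ 2 := by positivity
  have k6 : 0 < -g * p * (f * r * p ^ 2) := mul_pos (mul_pos (by linarith) hh) k5
  linarith

theorem M4'_dsum {k : ℕ} (T : Matrix (Fin k) (Fin k) SignType)
    (A : Matrix (Fin (4 + k)) (Fin (4 + k)) ℝ) (hA : Realizes A (dsum M4' T)) :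
    A.charpoly ≠ X ^ (4 + k) := by
  intro h
  obtain ⟨B, C, hB, hBC⟩ := blocks_of_realizes hA
  have hdvd : B.charpoly ∣ X ^ (4 + k) := by
    rw [← h, hBC]; exact dvd_mul_right _ _
  obtain ⟨i, -, hi⟩ := (dvd_prime_pow prime_X _).1 hdvd
  have heq : B.charpoly = X ^ i :=
    eq_of_monic_of_associated B.charpoly_monic (monic_X_pow i) hi
  have hi4 : i = 4 := by
    have h1 := Matrix.charpoly_natDegree_eq_dim B
    rw [heq, natDegree_X_pow, Fintype.card_fin] at h1
    exact h1
  rw [hi4] at heq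
  exact M4'_not_nilpotent B hB heq

/-- A real matrix with a power equal to zero has characteristic polynomial `X ^ n`. -/
theorem charpoly_of_nilpotent {n : ℕ} (A : Matrix (Fin n) (Fin n) ℝ) (h : IsNilpotent A) :
    A.charpoly = X ^ n := by
  have := Matrix.isNilpotent_charpoly_sub_pow_of_isNilpotent h
  have h2 := this.eq_zero
  rw [Fintype.card_fin, sub_eq_zero] at h2
  exact h2

theorem dsum_inl {m k : ℕ} (S : Matrix (Fin m) (Fin m) SignType)
    (T : Matrix (Fin k) (Fin k) SignType) (i j : Fin m) :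
    dsum S T (finSumFinEquiv (Sum.inl i)) (finSumFinEquiv (Sum.inl j)) = S i j := by
  unfold dsum
  rw [Matrix.reindex_apply, Matrix.submatrix_apply, Equiv.symm_apply_apply,
    Equiv.symm_apply_apply, Matrix.fromBlocks_apply₁₁]

/-- `M₄' ⊕ T` differs from `M₄ ⊕ T` in one entry only. -/
theorem one_entry {k : ℕ} (T : Matrix (Fin k) (Fin k) SignType) :
    ∃ i j, dsum M4 T i j = 0 ∧ dsum M4' T i j = 1 ∧
      ∀ x y, (x, y) ≠ (i, j) → dsum M4' T x y = dsum M4 T x y := by
  refine ⟨finSumFinEquiv (Sum.inl 0), finSumFinEquiv (Sum.inl 3), ?_, ?_, ?_⟩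
  · rw [dsum_inl]; rfl
  · rw [dsum_inl]; rfl
  · intro x y hxy
    obtain ⟨x, rfl⟩ := (finSumFinEquiv (m := 4) (n := k)).surjective x
    obtain ⟨y, rfl⟩ := (finSumFinEquiv (m := 4) (n := k)).surjective y
    unfold dsum
    rw [Matrix.reindex_apply, Matrix.submatrix_apply, Matrix.reindex_apply,
      Matrix.submatrix_apply, Equiv.symm_apply_apply, Equiv.symm_apply_apply]
    rcases x with x | x <;> rcases y with y | y
    · rw [Matrix.fromBlocks_apply₁₁, Matrix.fromBlocks_apply₁₁]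
      have h : (x, y) ≠ (0, 3) := by
        rintro h
        obtain ⟨rfl, rfl⟩ := Prod.mk.inj h
        exact hxy rfl
      fin_cases x <;> fin_cases y <;> first
        | rfl
        | exact absurd rfl h
    · rw [Matrix.fromBlocks_apply₁₂, Matrix.fromBlocks_apply₁₂]
    · rw [Matrix.fromBlocks_apply₂₁, Matrix.fromBlocks_apply₂₁]
    · rw [Matrix.fromBlocks_apply₂₂, Matrix.fromBlocks_apply₂₂]

/-- **The superpattern question for spectrally arbitrary sign patterns.**  For every order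
`n ≥ 6` there are a spectrally arbitrary sign pattern `S` and a superpattern `S'` of `S` which is
not spectrally arbitrary.  Moreover `S'` has only one more nonzero entry than `S`, and no
realization of `S'` is nilpotent. -/
theorem result : ∀ n : ℕ, 6 ≤ n → ∃ S S' : Matrix (Fin n) (Fin n) SignType,
    SpectrallyArbitrary S ∧ IsSuperpattern S' S ∧ ¬ SpectrallyArbitrary S' ∧
    (∃ i j, S i j = 0 ∧ S' i j = 1 ∧ ∀ x y, (x, y) ≠ (i, j) → S' x y = S x y) ∧
    (∀ A : Matrix (Fin n) (Fin n) ℝ, Realizes A S' → ¬ IsNilpotent A) := by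
  intro n hn
  obtain ⟨k, rfl⟩ : ∃ k, n = 4 + k := ⟨n - 4, by omega⟩
  obtain ⟨T, hT⟩ := exists_arbitrary k (by omega)
  obtain ⟨i, j, h1, h2, h3⟩ := one_entry T
  refine ⟨dsum M4 T, dsum M4' T, M4_dsum_arbitrary (by omega) hT, ?_, ?_, ⟨i, j, h1, h2, h3⟩, ?_⟩
  · intro x y hxy
    refine h3 x y ?_
    rintro h
    obtain ⟨rfl, rfl⟩ := Prod.mk.inj h
    exact hxy h1
  · intro h
    obtain ⟨A, hA, hA'⟩ := h (X ^ (4 + k)) (monic_X_pow _) (natDegree_X_pow _)
    exact M4'_dsum T A hA hA'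
  · intro A hA hnil
    exact M4'_dsum T A hA (charpoly_of_nilpotent A hnil)

end Pool.Agent.Results.MP_557f7f_co.SpectralSuperpattern
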